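import Pool.Agent.Y600.FB.Stm

/-!
# FB-LE: reduction between the constraint satisfaction problems of two machines (helper908)
-/

namespace Pool.Agent.Y908.FB

open Function Pool.Agent.NPC Pool.Agent.H593R3.FBC Pool.Agent.Y600.FB

theorem t_PUI : S_PUI := by
  unfold S_PUI uI cf
  have h1 : Poly (fun p : (List Unit × List Bool) × List Loc =>
      List.replicate ((p.1.1.length + 1) * p.2.length) ()) :=
    ((UPoly.length (by fun_prop)).add (UPoly.const 1)).mul (UPoly.length (by fun_prop))
  have h2 : Poly (fun a : ((List Unit × List Bool) × List Loc) × (Loc × ℕ) =>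
      List.range a.1.1.1.length) := (UPoly.length (by fun_prop)).range
  fun_prop

/-- the reduction on instances -/
def rho (m : Mach) (I : Inst) : Inst :=
  (red m I).elim ([], [(0, [0])]) (fun l => uI I.1.length (flagsL m I) l)

theorem poly_rho {m : Mach} (hm : m.OK) : Poly (rho m) := by
  unfold rho
  have h1 := poly_red hm
  have h2 := poly_flagsL hm
  have h3 : Poly (fun p : Inst × List Loc => uI p.1.1.length (flagsL m p.1) p.2) :=
    t_PUI.comp (f := fun p : Inst × List Loc => ((p.1.1, flagsL m p.1), p.2)) (by fun_prop)
  fun_prop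

theorem not_csp_bad {m : Mach} (hm : m.OK) : ¬ CSP (tau m) (bigR m) ([], [(0, [0])]) := by
  rw [csp_iff hm]
  rintro ⟨h, _⟩
  have h1 := (h (0, [0]) (by simp)).2 0 (by simp)
  simp at h1

theorem csp_rho {m m' : Mach} (hUI : S_UI) (hm : m.OK) (hm' : m'.OK)
    (hle : ∀ n, m.flag n = true → m'.flag n = true) (I : Inst) :
    CSP (tau m) (bigR m) I ↔ CSP (tau m') (bigR m') (rho m I) := by
  rw [csp_red hm]
  unfold rho
  cases hr : red m I with
  | none =>
    simp only [Option.elim_none]
    constructor
    · rintro ⟨l, hl, _⟩
      simp at hl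
    · intro h
      exact absurd h (not_csp_bad hm')
  | some l =>
    simp only [Option.elim_some]
    rw [hUI m' hm']
    obtain ⟨_, hb⟩ := red_bd hr
    have hfl : ∀ n, n ≤ I.1.length → (flagsL m I).getD n false = m.flag n := fun n hn =>
      fin_flagsL hm hn
    constructor
    · rintro ⟨l', hl', h⟩ c hc
      simp only [Option.some.injEq] at hl'
      subst hl'
      obtain ⟨ξ, h1, h2⟩ := h c hc
      refine ⟨ξ, fun i hi _ => h1 i hi, fun n hn hnT hs _ => h2 n hn ?_⟩
      rw [← hfl n hnT]
      exact hs
    · intro h
      refine ⟨l, rfl, fun c hc => ?_⟩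
      obtain ⟨ξ, h1, h2⟩ := h c hc
      refine ⟨fun i => if i ≤ I.1.length then ξ i else true, fun i hi => ?_, fun n hn hs => ?_⟩
      · by_cases hiT : i ≤ I.1.length
        · simp only [hiT, if_true]
          exact h1 i hi hiT
        · simp only [hiT, if_false]
      · have hnT := hb c hc n hn
        obtain ⟨h3, h4⟩ := h2 n hn hnT (by rw [hfl n hnT]; exact hs) (hle n hs)
        constructor
        · intro p hp a1 a2 a3
          beta_reduce
          rw [if_pos (by omega), if_pos (by omega), if_pos (by omega)]
          exact h3 p hp a1 a2 a3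
        · intro p hp a1 a2
          beta_reduce
          rw [if_pos (by omega), if_pos (by omega)]
          exact h4 p hp a1 a2

theorem t_LE : S_LE := by
  intro hUI m m' hm hm' hle
  set g : List Bool → Inst := fun y => (unbits Inst y).elim ([], [(0, [0])]) (rho m) with hg
  have hgp : Poly g := by
    have h1 := poly_rho hm
    have h2 : Poly (unbits Inst) := poly_unbits
    rw [hg]
    fun_prop
  refine ⟨fun y => bits (g y), polyTime_bits hgp, fun y => ?_⟩
  have e : y ∈ lang (CSP (tau m) (bigR m)) ↔
      ∃ I, unbits Inst y = some I ∧ CSP (tau m) (bigR m) I := mem_lang_iff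
  rw [e, bits_mem_lang]
  change _ ↔ CSP (tau m') (bigR m') ((unbits Inst y).elim ([], [(0, [0])]) (rho m))
  cases unbits Inst y with
  | none =>
    simp only [Option.elim_none]
    constructor
    · rintro ⟨I, hI, _⟩
      simp at hI
    · intro h
      exact absurd h (not_csp_bad hm')
  | some I =>
    simp only [Option.elim_some, Option.some.injEq, exists_eq_left']
    exact csp_rho hUI hm hm' hle I

end Pool.Agent.Y908.FB
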